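import Mathlib

namespace Pool.Agent.Results.MP_322323_co.Disproof

/-- A binary word with holes: `none` is a hole. -/
abbrev PW := List (Option (Fin 2))

/-- `u ⊂ v` for a word with holes `u` and a full word `v` of the same length. -/
def Sub (u : PW) (v : List (Fin 2)) : Prop :=
  List.Forall₂ (fun a b => a = none ∨ a = some b) u v

/-- The number of nonempty full words `x` such that some factor `u` of `w` has `u ⊂ x x`. -/
noncomputable def Sq (w : PW) : ℕ :=
  Set.ncard {x : List (Fin 2) | x ≠ [] ∧ ∃ u : PW, u <:+: w ∧ Sub u (x ++ x)}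

/-- The number of holes. -/
def holes (w : PW) : ℕ := w.count none

/-- `w'` arises from `w` by replacing exactly one hole by a letter. -/
def Strengthening (w w' : PW) : Prop :=
  ∃ (s t : PW) (c : Fin 2), w = s ++ none :: t ∧ w' = s ++ some c :: t

/-- All values `Sq w - Sq w'` with `|w| = n`, `h` holes in `w` and `w'` a strengthening of `w`;
`Δ_h Sq(n)` is the greatest element of this set. -/
def Drops (h n : ℕ) : Set ℤ :=
  {d | ∃ w w' : PW, w.length = n ∧ holes w = h ∧ Strengthening w w' ∧ d = (Sq w : ℤ) - Sq w'}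

def pre : List (Fin 2) → PW → Bool
  | [], _ => true
  | _ :: _, [] => false
  | b :: v, a :: t => (a == none || a == some b) && pre v t

lemma pre_iff (v : List (Fin 2)) (t : PW) : pre v t = true ↔ ∃ u, u <+: t ∧ Sub u v := by
  induction v generalizing t with
  | nil => exact ⟨fun _ => ⟨[], List.nil_prefix, List.Forall₂.nil⟩, fun _ => rfl⟩
  | cons b v ih =>
    cases t with
    | nil =>
      simp only [pre, Bool.false_eq_true, false_iff]
      rintro ⟨u, h1, h2⟩
      rw [List.prefix_nil.1 h1] at h2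
      cases h2
    | cons a t =>
      simp only [pre, Bool.and_eq_true, Bool.or_eq_true, beq_iff_eq, ih]
      constructor
      · rintro ⟨h1, u, h2, h3⟩
        exact ⟨a :: u, List.cons_prefix_cons.2 ⟨rfl, h2⟩, List.Forall₂.cons h1 h3⟩
      · rintro ⟨u, h1, h2⟩
        cases h2 with
        | cons h3 h4 =>
          obtain ⟨rfl, h5⟩ := List.cons_prefix_cons.1 h1
          exact ⟨h3, _, h5, h4⟩

def sqB (w : PW) (x : List (Fin 2)) : Bool := w.tails.any (pre (x ++ x))

lemma sqB_iff (w : PW) (x : List (Fin 2)) :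
    sqB w x = true ↔ ∃ u : PW, u <:+: w ∧ Sub u (x ++ x) := by
  simp only [sqB, List.any_eq_true, List.mem_tails, pre_iff]
  constructor
  · rintro ⟨t, h1, u, h2, h3⟩
    exact ⟨u, List.infix_iff_prefix_suffix.2 ⟨t, h2, h1⟩, h3⟩
  · rintro ⟨u, h1, h3⟩
    obtain ⟨t, h2, h4⟩ := List.infix_iff_prefix_suffix.1 h1
    exact ⟨t, h4, u, h2, h3⟩

def words : ℕ → List (List (Fin 2))
  | 0 => [[]]
  | k + 1 => (words k).flatMap fun x => [0 :: x, 1 :: x]

lemma mem_words (x : List (Fin 2)) : x ∈ words x.length := by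
  induction x with
  | nil => simp [words]
  | cons a x ih =>
    simp only [List.length_cons, words, List.mem_flatMap]
    refine ⟨x, ih, ?_⟩
    fin_cases a <;> simp

lemma Sq_eq (w : PW) (hw : w.length = 22) (L : List (List (Fin 2))) (hL : L.Nodup)
    (h1 : L.all (fun x => !(x == []) && sqB w x) = true)
    (h2 : (List.range 12).all (fun k => (words k).all fun x =>
      x == [] || !(sqB w x) || L.contains x) = true) : Sq w = L.length := by
  have : {x : List (Fin 2) | x ≠ [] ∧ ∃ u : PW, u <:+: w ∧ Sub u (x ++ x)} = ↑L.toFinset := by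
    ext x
    simp only [Set.mem_ofPred_eq, List.coe_toFinset]
    constructor
    · rintro ⟨hx, u, hu, hs⟩
      have hl : x.length < 12 := by
        have a1 := hu.length_le
        have a2 := List.Forall₂.length_eq hs
        rw [List.length_append] at a2
        omega
      have := List.all_eq_true.1 (List.all_eq_true.1 h2 _ (List.mem_range.2 hl)) x (mem_words x)
      have hb := (sqB_iff w x).2 ⟨u, hu, hs⟩
      simpa [hx, hb] using this
    · intro hx
      have := List.all_eq_true.1 h1 x hx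
      simp only [Bool.and_eq_true, Bool.not_eq_true', beq_eq_false_iff_ne] at this
      exact ⟨this.1, (sqB_iff w x).1 this.2⟩
  rw [Sq, this, Set.ncard_coe_finset, List.toFinset_card_of_nodup hL]

def s0 : PW := [some 1, some 1, some 1, some 0, some 1, some 1, some 1, some 1, some 1, some 0, some 1]
def t0 : PW := [none, some 1, some 1, some 1, some 0, some 1, some 1, some 1, some 1, some 1]

lemma Sq_w : Sq (s0 ++ none :: t0) = 23 :=
  Sq_eq _ rfl [[0], [1], [0, 1], [1, 0], [1, 1], [0, 1, 1], [1, 0, 1], [1, 1, 0], [1, 1, 1],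
    [0, 1, 1, 1], [1, 0, 1, 1], [1, 1, 0, 1], [0, 1, 1, 1, 1], [1, 0, 1, 1, 1], [0, 1, 1, 1, 1, 1],
    [1, 0, 1, 1, 1, 1], [1, 1, 0, 1, 1, 1], [1, 1, 1, 0, 1, 1], [1, 0, 1, 1, 1, 1, 1],
    [1, 1, 0, 1, 1, 1, 1], [1, 1, 1, 0, 1, 1, 1], [1, 1, 1, 1, 0, 1, 1], [1, 1, 1, 1, 1, 0, 1]]
    (by decide +kernel) (by decide +kernel) (by decide +kernel)

lemma Sq_w' : Sq (s0 ++ some 0 :: t0) = 8 :=
  Sq_eq _ rfl [[0], [1], [0, 1], [1, 0], [1, 1], [0, 1, 1, 1], [0, 1, 1, 1, 1], [1, 0, 1, 1, 1]]
    (by decide +kernel) (by decide +kernel) (by decide +kernel)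

/-- For `n = 22` a drop of `15 > 14 = ⌊7 · 21 / 10⌋` occurs, so the conjectured formula for
`Δ_2 Sq(n)` fails. -/
theorem result : (15 : ℤ) ∈ Drops 2 22 ∧
    ¬ ∀ n : ℕ, 8 ≤ n → IsGreatest (Drops 2 n) ((7 * (n - 1) / 10 : ℕ) : ℤ) := by
  have h : (15 : ℤ) ∈ Drops 2 22 :=
    ⟨s0 ++ none :: t0, s0 ++ some 0 :: t0, rfl, by decide, ⟨s0, t0, 0, rfl, rfl⟩, by
      rw [Sq_w, Sq_w']; norm_num⟩
  refine ⟨h, fun H => ?_⟩
  have := (H 22 (by norm_num)).2 h
  norm_num at this

end Pool.Agent.Results.MP_322323_co.Disproof
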